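import Pool.Agent.Q109.Polar.Main

/-!
The algebra generated by the polarizations of the invariants of `V` contains the `p ^ d`-th power
of every invariant of `V ^ n`, with `d` independent of `n`.
-/

set_option autoImplicit false

namespace Pool.Agent.Results.MP_d2bd57_al.UniformExponent

open MvPolynomial

universe u v

open Pool.Agent.Q109.Polar

/-- Let `k` be any field of characteristic `p > 0`, `G` a finite group acting on `V = k ^ m` by
the matrices `ρ g`. There is one `d`, with `p ^ d ≤ p * |G| ^ 2`, such that for every `n` and every
`G`-invariant `f ∈ k[V ^ n]` the power `f ^ (p ^ d)` lies in the subalgebra `P ρ n` generated by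
the polarizations of the invariants of `V`. -/
theorem result (p : ℕ) [Fact p.Prime] (k : Type u) [Field k] [CharP k p] (G : Type v)
    [Group G] [Finite G] (m : ℕ) (ρ : G →* Matrix (Fin m) (Fin m) k) :
    ∃ d : ℕ, p ^ d ≤ p * Nat.card G ^ 2 ∧
      ∀ (n : ℕ) (f : MvPolynomial (Fin n × Fin m) k), (∀ g, act ρ n g f = f) →
        f ^ p ^ d ∈ P ρ n :=
  uniform_bound p k G m ρ

end Pool.Agent.Results.MP_d2bd57_al.UniformExponent
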